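import Mathlib
import Pool.Agent.WeilUniform.Main
import Pool.Agent.WeilUniform.Convert

/-!
# The Lefschetz standard conjecture with a cycle independent of the cohomology theory

`𝒱` is a category with finite products together with an intersection theory `T` (the formal
properties of the Chow rings `CH(X)_ℚ` of smooth projective varieties over an algebraically closed
field) and `(W ℓ)_ℓ` is a family of Weil cohomology theories relative to `T`, with coefficients in
fields `K ℓ` of characteristic zero. The example to have in mind is `ℓ`-adic cohomology, `ℓ` running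
over the primes different from the characteristic. All notions are defined in
`Pool.Agent.WeilUniform.Defs`.
-/

open CategoryTheory MonoidalCategory CartesianMonoidalCategory

namespace Pool.Agent.WeilArchive.UniformFromEach

open Pool.Agent.Weil

universe t v u w x y

/-- Let `X` be a variety of dimension `n` and `i ≤ n`. Suppose that for every cohomology theory `ℓ` of
the family there is a class `h ℓ ∈ CH¹(X)_ℚ` such that for every `j ≤ i` there is a cycle `z` in
`CH^j(X × X)_ℚ`, possibly depending on `ℓ`, such that `z^*` is inverse to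
`(-) ∪ (h ℓ)^{n-j} : H^j_ℓ(X) ⟶ H^{2n-j}_ℓ(X)`. Let `j ≤ i`, and let `h' ∈ CH¹(X)_ℚ` be a class such
that the `j`-th Lefschetz operator of `h'` is injective for one theory `ℓ₁`. Then there is one cycle
`z` in `CH^j(X × X)_ℚ` such that `z^*` is inverse to `(-) ∪ h'^{n-j} : H^j_ℓ(X) ⟶ H^{2n-j}_ℓ(X)` for
all `ℓ` simultaneously. (In particular this holds for `h' = h ℓ₁`, for any `ℓ₁`.) -/
theorem uniform_from_each {𝒱 : Type u} [Category.{v} 𝒱] [CartesianMonoidalCategory 𝒱]
    (T : IntersectionTheory.{v, u, w} 𝒱) {ι : Type t} (K : ι → Type x) [∀ ℓ, Field (K ℓ)]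
    [∀ ℓ, CharZero (K ℓ)] (W : ∀ ℓ, WeilCohomology.{v, u, w, x, y} T (K ℓ))
    (X : 𝒱) (h : ι → T.obj X) (hh : ∀ ℓ, T.InDegree 1 (h ℓ)) (i : ℕ) (hi : i ≤ T.dim X)
    (B : ∀ ℓ, ∀ j ≤ i, ∃ z : T.obj (X ⊗ X), T.InDegree j z ∧
      (W ℓ).IsLefschetzInverse (h ℓ) j z)
    (j : ℕ) (hj : j ≤ i) (h' : T.obj X) (hh' : T.InDegree 1 h') (ℓ₁ : ι)
    (hard : (W ℓ₁).HardLefschetz h' j) :
    ∃ z : T.obj (X ⊗ X), T.InDegree j z ∧ ∀ ℓ, (W ℓ).IsLefschetzInverse h' j z :=
  Pool.Agent.WeilUniform.uniform_of_each (fun ℓ => (W ℓ).unbundle) X h hh i hi B j hj h' hh' ℓ₁ hard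

end Pool.Agent.WeilArchive.UniformFromEach
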