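import Mathlib
import Pool.Agent.WeilUniform.MainPure
import Pool.Agent.WeilUniform.Convert

/-!
# The Lefschetz standard conjecture, degree by degree, from purity

`𝒱` and `𝒱₀` are categories with finite products together with intersection theories `T`, `T₀` (the
formal properties of the Chow rings `CH(X)_ℚ` of smooth projective varieties over algebraically
closed fields `k`, `k₀`) and `(W ℓ)_ℓ`, `(W₀ ℓ)_ℓ` are families of Weil cohomology theories relative
to `T`, `T₀`, with coefficients in fields `K ℓ` of characteristic zero. The example to have in mind: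
`k` is an algebraically closed field of characteristic `p > 0`, `k₀` is an algebraic closure of the
prime field, `ℓ` runs over the primes different from `p` and all theories are `ℓ`-adic cohomology.
All notions are defined in `Pool.Agent.WeilUniform.Defs`.
-/

open CategoryTheory MonoidalCategory CartesianMonoidalCategory

namespace Pool.Agent.WeilArchive.UniformPure

open Pool.Agent.Weil

universe t v u w x y

/-- Let `X` be a variety of dimension `n`, with a specialisation `X₀` (that is, we are given a map `sp`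
from cycle classes on `X × X` to cycle classes on `X₀ × X₀` preserving codimensions, and isomorphisms
`φ ℓ : H_ℓ(X) ⟶ H_ℓ(X₀)` compatible with `sp` and the action of correspondences). Suppose that `X₀`
carries a degree zero correspondence `F` (the Frobenius) which is pure: for all theories `ℓ` and all `j`, `F^*` acting on
`H^j_ℓ(X₀)` is annihilated by a nonzero integral polynomial all of whose complex roots have absolute
value `q^{j/2}`, where `q > 1`. Let `h ∈ CH¹(X)_ℚ` and *fix* `i ≤ n`. Suppose that for *one* theory `ℓ₀`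
there is a cycle `z` in `CH^i(X × X)_ℚ` such that `z^*` is inverse to
`(-) ∪ h^{n-i} : H^i(X) ⟶ H^{2n-i}(X)`. Let `h' ∈ CH¹(X)_ℚ` be a class (for instance `h`) such that
the `i`-th Lefschetz operator of `h'` is injective for one theory `ℓ₁`. Then there is one cycle `z`
in `CH^i(X × X)_ℚ` such that `z^*` is inverse to `(-) ∪ h'^{n-i} : H^i(X) ⟶ H^{2n-i}(X)` for *all*
theories `ℓ` simultaneously. -/
theorem uniform_pure {𝒱 𝒱₀ : Type u} [Category.{v} 𝒱] [CartesianMonoidalCategory 𝒱]
    [Category.{v} 𝒱₀] [CartesianMonoidalCategory 𝒱₀]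
    (T : IntersectionTheory.{v, u, w} 𝒱) (T₀ : IntersectionTheory.{v, u, w} 𝒱₀)
    {ι : Type t} (K : ι → Type x) [∀ ℓ, Field (K ℓ)] [∀ ℓ, CharZero (K ℓ)]
    (W : ∀ ℓ, WeilCohomology.{v, u, w, x, y} T (K ℓ))
    (W₀ : ∀ ℓ, WeilCohomology.{v, u, w, x, y} T₀ (K ℓ))
    (X : 𝒱) (X₀ : 𝒱₀) (dim_eq : T₀.dim X₀ = T.dim X)
    (sp : T.obj (X ⊗ X) → T₀.obj (X₀ ⊗ X₀))
    (sp_degree : ∀ (r : ℤ) (z : T.obj (X ⊗ X)), T.InDegree r z → T₀.InDegree r (sp z))
    (φ : ∀ ℓ, (W ℓ).obj X → (W₀ ℓ).obj X₀) (hφ : ∀ ℓ, IsCompatible (W ℓ) (W₀ ℓ) sp (φ ℓ))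
    (F : T₀.obj (X₀ ⊗ X₀)) (hF : T₀.InDegree (T₀.dim X₀) F) (q : ℝ) (hq : 1 < q)
    (pure : ∀ ℓ, (W₀ ℓ).IsPure F q)
    (h : T.obj X) (hh : T.InDegree 1 h) (i : ℕ) (hi : i ≤ T.dim X) (ℓ₀ : ι)
    (B : ∃ z : T.obj (X ⊗ X), T.InDegree i z ∧ (W ℓ₀).IsLefschetzInverse h i z)
    (h' : T.obj X) (hh' : T.InDegree 1 h') (ℓ₁ : ι) (hard : (W ℓ₁).HardLefschetz h' i) :
    ∃ z : T.obj (X ⊗ X), T.InDegree i z ∧ ∀ ℓ, (W ℓ).IsLefschetzInverse h' i z :=
  Pool.Agent.WeilUniform.uniform_of_pure (fun ℓ => (W ℓ).unbundle) (fun ℓ => (W₀ ℓ).unbundle)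
    X X₀ (specialization dim_eq sp sp_degree φ hφ) F hF q hq (fun ℓ j => (pure ℓ).unbundle j)
    h hh i hi ℓ₀ B h' hh' ℓ₁ hard

end Pool.Agent.WeilArchive.UniformPure
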